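import Pool.Agent.W716.FV.StmB
import Pool.Agent.H241R3.FV.TLoc
import Pool.Agent.H241R3.FV.TDiff

/-!
# Derivative of `Psi` in a cone chart (part JA of the project FV of helper716)
-/

set_option autoImplicit false

open MeasureTheory Metric Set Filter Topology InnerProductGeometry

namespace Pool.Agent.W376.FV.JA

open Pool.Agent.W716.FV
open Pool.Agent.H241R3.FV (Sph ext RChart gnorm TaskLoc)

lemma meas_xi {n : ℕ} (η : E n) : Measurable (xi η) := by
  unfold xi
  exact measurable_fst.add (measurable_snd.smul_const η)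

lemma cont_xi {n : ℕ} (η : E n) : Continuous (xi η) := by
  unfold xi
  fun_prop

lemma norm_xi {n : ℕ} (η : E n) (w : E n × ℝ) : ‖xi η w‖ ≤ ‖w.1‖ + |w.2| * ‖η‖ := by
  unfold xi
  refine (norm_add_le _ _).trans ?_
  rw [norm_smul, Real.norm_eq_abs]

/-- a property that holds almost everywhere holds at `g + κ η` almost surely -/
lemma ae_xi {n : ℕ} (η : E n) {p : E n → Prop} (h : ∀ᵐ G ∂(volume : Measure (E n)), p G) :
    ∀ᵐ w ∂(P n), p (xi η w) := by
  have h1 : SFinite (gam n) := by unfold gam; infer_instance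
  have h2 : SFinite nu := by unfold nu; infer_instance
  have hq : Measure.QuasiMeasurePreserving (xi η) (P n) (volume : Measure (E n)) := by
    refine ⟨meas_xi η, Measure.AbsolutelyContinuous.mk fun s hs hs0 => ?_⟩
    rw [Measure.map_apply (meas_xi η) hs]
    unfold P
    rw [Measure.prod_apply_symm ((meas_xi η) hs)]
    have h3 : ∀ κ : ℝ, gam n ((fun x => (x, κ)) ⁻¹' (xi η ⁻¹' s)) = 0 := by
      intro κ
      have h4 : (volume : Measure (E n)) ((fun x => (x, κ)) ⁻¹' (xi η ⁻¹' s)) = 0 := by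
        have h5 : ((fun x : E n => (x, κ)) ⁻¹' (xi η ⁻¹' s)) = (fun x : E n => x + κ • η) ⁻¹' s := by
          ext x; rfl
        rw [h5, measure_preimage_add_right, hs0]
      exact (withDensity_absolutelyContinuous _ _) h4
    simp [h3]
  exact hq.ae h

lemma int_poly {n : ℕ} (hI : ∀ j k : ℕ, j ≤ 4 →
    Integrable (fun w : E n × ℝ => |w.2| ^ j * ‖w.1‖ ^ k) (P n)) (η : E n) (K : ℝ) :
    Integrable (fun w : E n × ℝ => K * (‖w.1‖ + |w.2| * ‖η‖) * ‖w.1‖) (P n) ∧
    Integrable (fun w : E n × ℝ => K * (‖w.1‖ + |w.2| * ‖η‖) * |w.2|) (P n) := by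
  constructor
  · have := ((hI 0 2 (by norm_num)).const_mul K).add ((hI 1 1 (by norm_num)).const_mul (K * ‖η‖))
    refine this.congr (Eventually.of_forall fun w => ?_)
    simp only [Pi.add_apply]
    ring
  · have := ((hI 1 1 (by norm_num)).const_mul K).add ((hI 2 0 (by norm_num)).const_mul (K * ‖η‖))
    refine this.congr (Eventually.of_forall fun w => ?_)
    simp only [Pi.add_apply]
    ring

theorem main (hPM : PMoments) (hUF : UFacts) (hPF : PsiFacts) (hBC : BChart) (hJD : JDet) :
    Jac := by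
  intro n hn M _ bd hbd C
  obtain ⟨hgood, _, hlip, hsq, _⟩ := hUF n hn M bd hbd
  obtain ⟨hPsi, _⟩ := hPF n hn M bd hbd
  obtain ⟨_, hI, _⟩ := hPM n
  filter_upwards [hBC n hn M bd hbd C] with c hc hcU η R hR
  obtain ⟨D, hDm, hD⟩ := hc hcU
  have hDw := ae_xi η hD
  -- Lipschitz constant near `c`
  obtain ⟨r, hr, hball, hdist⟩ := Pool.Agent.H241R3.FV.TLoc.taskLoc n M C c hcU 1 one_pos
  obtain ⟨C0, hC0, hgn⟩ := Pool.Agent.H241R3.FV.TDiff.gnorm_le (C.G c)
  set K : ℝ := C0 + 1 with hK
  have hK0 : 0 ≤ K := by positivity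
  have hL : ∀ (G : E n), ∀ y ∈ ball c r, |UU bd (C.map y) G - UU bd (C.map c) G| ≤
      K * ‖G‖ * ‖y - c‖ := by
    intro G y hy
    have h1 := hdist y hy c (mem_ball_self hr)
    have h2 := hgn (y - c)
    calc |UU bd (C.map y) G - UU bd (C.map c) G| ≤ ‖G‖ * dist (C.map y) (C.map c) := hlip _ _ _
      _ ≤ ‖G‖ * (K * ‖y - c‖) := by
          apply mul_le_mul_of_nonneg_left _ (norm_nonneg _)
          rw [hK]
          linarith
      _ = _ := by ring
  have hUc : ∀ q, Continuous (UU bd q) := by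
    intro q
    have : LipschitzWith 1 (UU bd q) := by
      apply LipschitzWith.of_dist_le_mul
      intro x y
      rw [Real.dist_eq, dist_eq_norm]
      simpa using (hgood q).lip x y
    exact this.continuous
  have hUle : ∀ q G, |UU bd q G| ≤ ‖G‖ := by
    intro q G
    exact abs_le_of_sq_le_sq (hsq q G) (norm_nonneg _)
  have hac : ∀ q, Continuous (fun w => UU bd q (xi η w)) := fun q => (hUc q).comp (cont_xi η)
  have hℓm : Measurable (fun w => D (xi η w)) := hDm.comp (meas_xi η)
  obtain ⟨hi1, hi2⟩ := int_poly hI η K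
  obtain ⟨hj1, hj2⟩ := int_poly hI η 1
  -- integrability of the integrands
  have hint1 : ∀ q, Integrable (fun w : E n × ℝ => UU bd q (xi η w) • w.1) (P n) := by
    intro q
    refine Integrable.mono' hj1 ((hac q).smul continuous_fst).aestronglyMeasurable
      (Eventually.of_forall fun w => ?_)
    rw [norm_smul, Real.norm_eq_abs, one_mul]
    exact mul_le_mul_of_nonneg_right ((hUle _ _).trans (norm_xi η w)) (norm_nonneg _)
  have hint2 : ∀ q, Integrable (fun w : E n × ℝ => w.2 * UU bd q (xi η w)) (P n) := by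
    intro q
    refine Integrable.mono' hj2 (continuous_snd.mul (hac q)).aestronglyMeasurable
      (Eventually.of_forall fun w => ?_)
    rw [norm_mul, Real.norm_eq_abs, Real.norm_eq_abs, one_mul, mul_comm]
    exact mul_le_mul_of_nonneg_right ((hUle _ _).trans (norm_xi η w)) (abs_nonneg _)
  -- the derivatives
  have hm := hasFDerivAt_integral_of_dominated_loc_of_lip' (μ := P n) (𝕜 := ℝ)
    (F := fun (c' : E n) (w : E n × ℝ) => UU bd (C.map c') (xi η w) • w.1) (x₀ := c)
    (F' := fun w : E n × ℝ => (D (xi η w)).smulRight w.1)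
    (bound := fun w : E n × ℝ => K * (‖w.1‖ + |w.2| * ‖η‖) * ‖w.1‖) (ball_mem_nhds c hr)
    (fun y _ => (hint1 _).aestronglyMeasurable) (hint1 _)
    (by
      have h1 : Measurable (fun w : E n × ℝ => (D (xi η w), w.1)) := hℓm.prodMk measurable_fst
      have h2 : Continuous (fun z : (E n →L[ℝ] ℝ) × E n => z.1.smulRight z.2) := by
        fun_prop
      exact (h2.measurable.comp h1).aestronglyMeasurable)
    (Eventually.of_forall fun w y hy => by
      rw [← sub_smul, norm_smul, Real.norm_eq_abs]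
      have h1 := hL (xi η w) y hy
      have h2 := norm_xi η w
      calc |UU bd (C.map y) (xi η w) - UU bd (C.map c) (xi η w)| * ‖w.1‖
          ≤ (K * ‖xi η w‖ * ‖y - c‖) * ‖w.1‖ := mul_le_mul_of_nonneg_right h1 (norm_nonneg _)
        _ ≤ (K * (‖w.1‖ + |w.2| * ‖η‖) * ‖y - c‖) * ‖w.1‖ := by gcongr
        _ = _ := by ring)
    hi1
    (by
      filter_upwards [hDw] with w hw
      exact hw.1.smul_const w.1)
  have hb := hasFDerivAt_integral_of_dominated_loc_of_lip' (μ := P n) (𝕜 := ℝ)
    (F := fun (c' : E n) (w : E n × ℝ) => w.2 * UU bd (C.map c') (xi η w)) (x₀ := c)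
    (F' := fun w : E n × ℝ => w.2 • D (xi η w))
    (bound := fun w : E n × ℝ => K * (‖w.1‖ + |w.2| * ‖η‖) * |w.2|) (ball_mem_nhds c hr)
    (fun y _ => (hint2 _).aestronglyMeasurable) (hint2 _)
    (by exact (measurable_snd.smul hℓm).aestronglyMeasurable)
    (Eventually.of_forall fun w y hy => by
      rw [← mul_sub, norm_mul, Real.norm_eq_abs, Real.norm_eq_abs]
      have h1 := hL (xi η w) y hy
      have h2 := norm_xi η w
      calc |w.2| * |UU bd (C.map y) (xi η w) - UU bd (C.map c) (xi η w)|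
          ≤ |w.2| * (K * ‖xi η w‖ * ‖y - c‖) := mul_le_mul_of_nonneg_left h1 (abs_nonneg _)
        _ ≤ |w.2| * (K * (‖w.1‖ + |w.2| * ‖η‖) * ‖y - c‖) := by gcongr
        _ = _ := by ring)
    hi2
    (by
      filter_upwards [hDw] with w hw
      exact hw.1.const_mul w.2)
  obtain ⟨hmi, hmd⟩ := hm
  obtain ⟨hbi, hbd'⟩ := hb
  set m : E n → E n := fun c' => ∫ w, UU bd (C.map c') (xi η w) • w.1 ∂(P n) with hmdef
  set b : E n → ℝ := fun c' => ∫ w, w.2 * UU bd (C.map c') (xi η w) ∂(P n) with hbdef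
  set Dm : E n →L[ℝ] E n := ∫ w, (D (xi η w)).smulRight w.1 ∂(P n) with hDm'
  set Db : E n →L[ℝ] ℝ := ∫ w, w.2 • D (xi η w) ∂(P n) with hDb'
  set fs : (ℝ × E n) →L[ℝ] ℝ := ContinuousLinearMap.fst ℝ ℝ (E n) with hfs
  set sn : (ℝ × E n) →L[ℝ] E n := ContinuousLinearMap.snd ℝ ℝ (E n) with hsn
  set L1 : (ℝ × E n) →L[ℝ] ℝ := (R / 3 - b c) • fs - R • (Db.comp sn) with hL1
  set L2 : (ℝ × E n) →L[ℝ] E n := fs.smulRight (m c) + R • (Dm.comp sn) with hL2
  have hfsd : HasFDerivAt (fun z : ℝ × E n => z.1) fs (R, c) := hasFDerivAt_fst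
  have hsnd : HasFDerivAt (fun z : ℝ × E n => z.2) sn (R, c) := hasFDerivAt_snd
  have hbz : HasFDerivAt (fun z : ℝ × E n => b z.2) (Db.comp sn) (R, c) :=
    HasFDerivAt.comp (R, c) (show HasFDerivAt b Db (R, c).2 from hbd') hsnd
  have hmz : HasFDerivAt (fun z : ℝ × E n => m z.2) (Dm.comp sn) (R, c) :=
    HasFDerivAt.comp (R, c) (show HasFDerivAt m Dm (R, c).2 from hmd) hsnd
  have hd1 : HasFDerivAt (fun z : ℝ × E n => (z.1 ^ 2 + ‖η‖ ^ 2) / 6 - z.1 * b z.2) L1 (R, c) := by
    have h1 := (((hfsd.pow 2).add_const (‖η‖ ^ 2)).mul_const (1 / 6 : ℝ)).sub (hfsd.mul hbz)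
    have h2 : (fun z : ℝ × E n => (z.1 ^ 2 + ‖η‖ ^ 2) / 6 - z.1 * b z.2) =
        (fun z : ℝ × E n => (z.1 ^ 2 + ‖η‖ ^ 2) * (1 / 6) - z.1 * b z.2) := by
      funext z; ring
    rw [h2]
    refine h1.congr_fderiv ?_
    ext v
    · simp [hL1, hfs, hsn]
      ring
    · simp [hL1, hfs, hsn]
  have hd2 : HasFDerivAt (fun z : ℝ × E n => z.1 • m z.2 - η) L2 (R, c) := by
    have h1 := (hfsd.smul hmz).sub_const η
    refine h1.congr_fderiv ?_
    rw [hL2]
    exact add_comm _ _
  refine ⟨L1.prod L2, ?_, ?_⟩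
  · have h1 := hd1.prodMk hd2
    refine h1.congr_of_eventuallyEq (Eventually.of_forall fun z => ?_)
    exact hPsi η z.1 (C.map z.2)
  · have h1 := hJD n (C.G c) (C.pos_G c hcU) R hR η (fun w => UU bd (C.map c) (xi η w))
      (fun w => D (xi η w)) (hac _).measurable hℓm
      (by
        filter_upwards [hDw] with w hw
        exact ⟨hsq _ _, hw.2⟩)
      (L1.prod L2)
      (by
        intro t v
        have e1 : ∫ w, w.2 * (t * UU bd (C.map c) (xi η w) + R * D (xi η w) v) ∂(P n) =
            t * b c + R * Db v := by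
          have h3 : Db v = ∫ w, w.2 * D (xi η w) v ∂(P n) := by
            rw [hDb', ContinuousLinearMap.integral_apply hbi]
            rfl
          have h4 : Integrable (fun w : E n × ℝ => w.2 * D (xi η w) v) (P n) :=
            hbi.apply_continuousLinearMap v
          rw [h3, hbdef, ← integral_const_mul, ← integral_const_mul,
            ← integral_add ((hint2 _).const_mul t) (h4.const_mul R)]
          congr 1
          funext w
          ring
        have e2 : ∫ w, (t * UU bd (C.map c) (xi η w) + R * D (xi η w) v) • w.1 ∂(P n) =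
            t • m c + R • Dm v := by
          have h3 : Dm v = ∫ w, (D (xi η w) v) • w.1 ∂(P n) := by
            rw [hDm', ContinuousLinearMap.integral_apply hmi]
            rfl
          have h4 : Integrable (fun w : E n × ℝ => (D (xi η w) v) • w.1) (P n) :=
            hmi.apply_continuousLinearMap v
          have h5 := integral_add (μ := P n)
            (f := fun w : E n × ℝ => t • UU bd (C.map c) (xi η w) • w.1)
            (g := fun w : E n × ℝ => R • (D (xi η w) v) • w.1) ((hint1 _).smul t) (h4.smul R)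
          rw [h3, hmdef, ← integral_smul, ← integral_smul, ← h5]
          congr 1
          funext w
          simp only [add_smul, smul_smul]
        rw [e1, e2]
        simp only [ContinuousLinearMap.prod_apply, hL1, hL2, hfs, hsn,
          _root_.sub_apply, _root_.smul_apply, _root_.add_apply, ContinuousLinearMap.comp_apply,
          ContinuousLinearMap.coe_fst', ContinuousLinearMap.coe_snd',
          ContinuousLinearMap.smulRight_apply, smul_eq_mul]
        congr 1
        ring)
    rw [hPsi η R (C.map c)]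
    exact h1

end Pool.Agent.W376.FV.JA
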